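import Mathlib

set_option autoImplicit false

namespace Pool.Agent.H.MP_492a05_co

structure Thin {α : Type*} [PartialOrder α] (ρ : α → ℕ) : Prop where
  mono : ∀ x y, x < y → ρ x < ρ y
  gap : ∀ x y, x < y → ρ x + 2 ≤ ρ y → ∃ z, x < z ∧ z < y
  dia : ∀ x y, x ≤ y → ρ y = ρ x + 2 →
    ∃ a b, a ≠ b ∧ ∀ z, (x ≤ z ∧ z ≤ y ∧ ρ z = ρ x + 1) ↔ (z = a ∨ z = b)

def Con {α : Type*} [PartialOrder α] (ρ : α → ℕ) : Prop :=
  ∀ x y : α, x ≤ y → ρ x + 3 ≤ ρ y → ∀ T : Set α,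
    (∀ w w', x < w → w ≤ w' → w' < y → (w ∈ T ↔ w' ∈ T)) →
    ∀ w w', x < w → w < y → x < w' → w' < y → w ∈ T → w' ∈ T

section
variable {α : Type*} [PartialOrder α] {ρ : α → ℕ}

lemma Thin.le (h : Thin ρ) {x y : α} (hxy : x ≤ y) : ρ x ≤ ρ y := by
  rcases hxy.eq_or_lt with rfl | hl
  · exact le_rfl
  · exact (h.mono _ _ hl).le

lemma Thin.eq (h : Thin ρ) {x y : α} (hxy : x ≤ y) (hr : ρ y ≤ ρ x) : x = y := by
  rcases hxy.eq_or_lt with rfl | hl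
  · rfl
  · have := h.mono _ _ hl; omega

lemma Thin.lt {x y : α} (hxy : x ≤ y) (hr : ρ x < ρ y) : x < y :=
  lt_of_le_of_ne hxy (by rintro rfl; omega)

lemma Thin.mid (h : Thin ρ) (k : ℕ) : ∀ (n : ℕ) (x y : α), ρ y ≤ ρ x + n → x ≤ y → ρ x ≤ k →
    k ≤ ρ y → ∃ z, x ≤ z ∧ z ≤ y ∧ ρ z = k := by
  intro n
  induction n with
  | zero => intro x y h1 h2 h3 h4; exact ⟨x, le_rfl, h2, by omega⟩
  | succ n ih =>
    intro x y h1 h2 h3 h4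
    by_cases e1 : ρ x = k
    · exact ⟨x, le_rfl, h2, e1⟩
    by_cases e2 : ρ y = k
    · exact ⟨y, h2, le_rfl, e2⟩
    obtain ⟨z, hz1, hz2⟩ := h.gap x y (Thin.lt h2 (ρ := ρ) (by omega)) (by omega)
    have := h.mono _ _ hz1
    have := h.mono _ _ hz2
    rcases le_total k (ρ z) with hk | hk
    · obtain ⟨w, a, b, c⟩ := ih x z (by omega) hz1.le h3 hk
      exact ⟨w, a, b.trans hz2.le, c⟩
    · obtain ⟨w, a, b, c⟩ := ih z y (by omega) hz2.le hk h4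
      exact ⟨w, hz1.le.trans a, b, c⟩

lemma Thin.mid' (h : Thin ρ) (k : ℕ) {x y : α} (h2 : x ≤ y) (h3 : ρ x ≤ k) (h4 : k ≤ ρ y) :
    ∃ z, x ≤ z ∧ z ≤ y ∧ ρ z = k := h.mid k (ρ y) x y (by omega) h2 h3 h4

lemma Thin.other (h : Thin ρ) {x a y : α} (h1 : x ≤ a) (h2 : a ≤ y) (h3 : ρ a = ρ x + 1)
    (h4 : ρ y = ρ x + 2) : ∃ b, b ≠ a ∧ x ≤ b ∧ b ≤ y ∧ ρ b = ρ x + 1 ∧
      ∀ z, x ≤ z → z ≤ y → ρ z = ρ x + 1 → z = a ∨ z = b := by
  obtain ⟨c, d, hcd, hz⟩ := h.dia x y (h1.trans h2) h4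
  rcases (hz a).mp ⟨h1, h2, h3⟩ with rfl | rfl
  · obtain ⟨p, q, r⟩ := (hz d).mpr (Or.inr rfl)
    exact ⟨d, hcd.symm, p, q, r, fun z a1 a2 a3 => (hz z).mp ⟨a1, a2, a3⟩⟩
  · obtain ⟨p, q, r⟩ := (hz c).mpr (Or.inl rfl)
    exact ⟨c, hcd, p, q, r, fun z a1 a2 a3 => ((hz z).mp ⟨a1, a2, a3⟩).symm⟩

lemma lev (h : Thin ρ) (hc : Con ρ) (k : ℕ) (S : Set α) : ∀ (n : ℕ) (x y : α), ρ y ≤ ρ x + n →
    (∀ u v z z', x ≤ u → u ≤ z → u ≤ z' → z ≤ v → z' ≤ v → v ≤ y → ρ u + 1 = k → ρ v = k + 1 →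
      ρ z = k → ρ z' = k → z ∈ S → z' ∈ S) →
    ∀ z z', x ≤ z → z ≤ y → x ≤ z' → z' ≤ y → ρ z = k → ρ z' = k → z ∈ S → z' ∈ S := by
  intro n
  induction n with
  | zero =>
    intro x y h1 _ z z' a1 a2 a3 a4 a5 a6 hS
    have e1 := h.le a1
    have e2 := h.le a2
    rw [← h.eq a3 (by omega), h.eq a1 (by omega)]; exact hS
  | succ n ih =>
    intro x y h1 hR z z' a1 a2 a3 a4 a5 a6 hS
    have e1 := h.le a1
    have e2 := h.le a2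
    by_cases c1 : ρ x = k
    · rw [← h.eq a3 (by omega), h.eq a1 (by omega)]; exact hS
    by_cases c2 : ρ y = k
    · rw [h.eq a4 (by omega), ← h.eq a2 (by omega)]; exact hS
    by_cases c3 : ρ y = ρ x + 2
    · exact hR x y z z' le_rfl a1 a3 a2 a4 le_rfl (by omega) (by omega) a5 a6 hS
    have key : ∀ w, x < w → w < y → ∀ p p', x ≤ p → p ≤ y → x ≤ p' → p' ≤ y → ρ p = k → ρ p' = k →
        (p ≤ w ∨ w ≤ p) → (p' ≤ w ∨ w ≤ p') → p ∈ S → p' ∈ S := by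
      intro w b1 b2 p p' d1 d2 d3 d4 d5 d6 d7 d8 hp
      have f1 := h.mono _ _ b1
      have f2 := h.mono _ _ b2
      rcases le_total k (ρ w) with hk | hk
      · have g1 : p ≤ w := d7.elim id fun g => (h.eq g (by omega)).ge
        have g2 : p' ≤ w := d8.elim id fun g => (h.eq g (by omega)).ge
        exact ih x w (by omega) (fun u v z z' i1 i2 i3 i4 i5 i6 =>
          hR u v z z' i1 i2 i3 i4 i5 (i6.trans b2.le)) p p' d1 g1 d3 g2 d5 d6 hp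
      · have g1 : w ≤ p := d7.elim (fun g => (h.eq g (by omega)).ge) id
        have g2 : w ≤ p' := d8.elim (fun g => (h.eq g (by omega)).ge) id
        exact ih w y (by omega) (fun u v z z' i1 i2 i3 i4 i5 i6 =>
          hR u v z z' (b1.le.trans i1) i2 i3 i4 i5 i6) p p' g1 d2 g2 d4 d5 d6 hp
    have := hc x y (a1.trans a2) (by omega)
      {w | ∃ p, x ≤ p ∧ p ≤ y ∧ ρ p = k ∧ (p ≤ w ∨ w ≤ p) ∧ p ∈ S} ?_ z z'
      (Thin.lt a1 (ρ := ρ) (by omega)) (Thin.lt a2 (ρ := ρ) (by omega))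
      (Thin.lt a3 (ρ := ρ) (by omega)) (Thin.lt a4 (ρ := ρ) (by omega))
      ⟨z, a1, a2, a5, Or.inl le_rfl, hS⟩
    · obtain ⟨p, -, -, b3, b4, b5⟩ := this
      rcases b4 with b4 | b4
      · rw [← h.eq b4 (by omega)]; exact b5
      · rw [h.eq b4 (by omega)]; exact b5
    · intro w w' b1 b2 b3
      have b4 : w < y := lt_of_le_of_lt b2 b3
      have b5 : x < w' := lt_of_lt_of_le b1 b2
      have f1 := h.mono _ _ b1
      have f2 := h.mono _ _ b3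
      obtain ⟨q, q1, q2, q3, q4, q5⟩ : ∃ q, x ≤ q ∧ q ≤ y ∧ ρ q = k ∧ (q ≤ w ∨ w ≤ q) ∧
          (q ≤ w' ∨ w' ≤ q) := by
        by_cases k1 : k ≤ ρ w
        · obtain ⟨q, i1, i2, i3⟩ := h.mid' k b1.le (by omega) k1
          exact ⟨q, i1, i2.trans b4.le, i3, Or.inl i2, Or.inl (i2.trans b2)⟩
        by_cases k2 : ρ w' ≤ k
        · obtain ⟨q, i1, i2, i3⟩ := h.mid' k b3.le k2 (by omega)
          exact ⟨q, b5.le.trans i1, i2, i3, Or.inr (b2.trans i1), Or.inr i1⟩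
        · obtain ⟨q, i1, i2, i3⟩ := h.mid' k b2 (by omega) (by omega)
          exact ⟨q, b1.le.trans i1, i2.trans b3.le, i3, Or.inr i1, Or.inl i2⟩
      constructor
      · rintro ⟨p, p1, p2, p3, p4, p5⟩
        exact ⟨q, q1, q2, q3, q5, key w b1 b4 p q p1 p2 q1 q2 p3 q3 p4 q4 p5⟩
      · rintro ⟨p, p1, p2, p3, p4, p5⟩
        exact ⟨q, q1, q2, q3, q4, key w' b5 b3 p q p1 p2 q1 q2 p3 q3 p4 q5 p5⟩

end

/-- the data of the comparison between `L` and `Q` -/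
structure Setup {L Q : Type*} [PartialOrder L] [PartialOrder Q] (σ : L → ℕ) (ρ : Q → ℕ) (s : ℕ)
    (q : L → Q) (b t : L) : Prop where
  tl : Thin σ
  tq : Thin ρ
  con : Con σ
  meet : ∀ x y : L, ∃ c, c ≤ x ∧ c ≤ y ∧ ∀ z, z ≤ x → z ≤ y → z ≤ c
  bot : ∀ x, b ≤ x
  top : ∀ x, x ≤ t
  hb : σ b + 2 ≤ s
  ht : s + 2 ≤ σ t
  qb : ∀ x, q b ≤ x
  qt : ∀ x, x ≤ q t
  ord : ∀ x y, σ x ≠ s → σ y ≠ s → (q x ≤ q y ↔ x ≤ y)
  rk : ∀ x, σ x ≠ s → ρ (q x) = σ x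
  sur : ∀ e, ρ e ≠ s → ∃ x, σ x ≠ s ∧ q x = e

section
variable {L Q : Type*} [PartialOrder L] [PartialOrder Q] {σ : L → ℕ} {ρ : Q → ℕ} {s : ℕ}
  {q : L → Q} {b t : L}

lemma Setup.two (h : Setup σ ρ s q b t) {k : ℕ} {a a' c c' : L} (h1 : a ≠ a') (h2 : c ≠ c')
    (r1 : σ a = k) (r2 : σ a' = k) (r3 : σ c = k + 1) (r4 : σ c' = k + 1)
    (l1 : a ≤ c) (l2 : a ≤ c') (l3 : a' ≤ c) (l4 : a' ≤ c') : False := by
  obtain ⟨m, m1, m2, m3⟩ := h.meet c c'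
  have e1 := h.tl.le (m3 a l1 l2)
  have e2 := h.tl.le m1
  by_cases e : σ m = k
  · exact h1 ((h.tl.eq (m3 a l1 l2) (by omega)).trans (h.tl.eq (m3 a' l3 l4) (by omega)).symm)
  · exact h2 ((h.tl.eq m1 (by omega)).symm.trans (h.tl.eq m2 (by omega)))

lemma Setup.exG (h : Setup σ ρ s q b t) (e : Q) (he : ρ e = s) : ∃ g : L, σ g = s ∧
    (∀ F, σ F + 1 = s → (q F ≤ e ↔ F ≤ g)) ∧ (∀ H, σ H = s + 1 → (e ≤ q H ↔ g ≤ H)) := by
  have hb := h.hb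
  have ht := h.ht
  have rb := h.rk b (by omega)
  have rt := h.rk t (by omega)
  -- two elements below in any diamond below `e`
  have below : ∀ u : Q, u ≤ e → ρ u + 2 = s → ∃ F F' : L, F ≠ F' ∧ σ F + 1 = s ∧ σ F' + 1 = s ∧
      u ≤ q F ∧ u ≤ q F' ∧ q F ≤ e ∧ q F' ≤ e := by
    intro u u2 u3
    obtain ⟨a, a', ha, hz⟩ := h.tq.dia u e u2 (by omega)
    obtain ⟨a1, a2, a3⟩ := (hz a).mpr (Or.inl rfl)
    obtain ⟨b1, b2, b3⟩ := (hz a').mpr (Or.inr rfl)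
    obtain ⟨F, F1, rfl⟩ := h.sur a (by omega)
    obtain ⟨F', F2, rfl⟩ := h.sur a' (by omega)
    have := h.rk F F1
    have := h.rk F' F2
    exact ⟨F, F', fun c => ha (by rw [c]), by omega, by omega, a1, b1, a2, b2⟩
  have above : ∀ v : Q, e ≤ v → ρ v = s + 2 → ∃ H H' : L, H ≠ H' ∧ σ H = s + 1 ∧ σ H' = s + 1 ∧
      e ≤ q H ∧ e ≤ q H' ∧ q H ≤ v ∧ q H' ≤ v := by
    intro v u2 u3
    obtain ⟨a, a', ha, hz⟩ := h.tq.dia e v u2 (by omega)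
    obtain ⟨a1, a2, a3⟩ := (hz a).mpr (Or.inl rfl)
    obtain ⟨b1, b2, b3⟩ := (hz a').mpr (Or.inr rfl)
    obtain ⟨F, F1, rfl⟩ := h.sur a (by omega)
    obtain ⟨F', F2, rfl⟩ := h.sur a' (by omega)
    have := h.rk F F1
    have := h.rk F' F2
    exact ⟨F, F', fun c => ha (by rw [c]), by omega, by omega, a1, b1, a2, b2⟩
  obtain ⟨u, -, u2, u3⟩ := h.tq.mid' (s - 2) (h.qb e) (by omega) (by omega)
  obtain ⟨F1, F2, hF, f1, f2, -, -, f3, f4⟩ := below u u2 (by omega)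
  obtain ⟨v, v1, -, v3⟩ := h.tq.mid' (s + 2) (h.qt e) (by omega) (by omega)
  obtain ⟨H1, H2, hH, i1, i2, i3, i4, -, -⟩ := above v v1 v3
  have FH : ∀ F H, σ F + 1 = s → σ H = s + 1 → q F ≤ e → e ≤ q H → F ≤ H := fun F H a1 a2 a3 a4 =>
    (h.ord F H (by omega) (by omega)).mp (a3.trans a4)
  have big : ∀ m, F1 ≤ m → F2 ≤ m → s ≤ σ m := by
    intro m m1 m2
    by_contra c
    exact hF ((h.tl.eq m1 (by omega)).trans (h.tl.eq m2 (by omega)).symm)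
  obtain ⟨g, g1, g2, g3⟩ := h.meet H1 H2
  have gF : ∀ F, σ F + 1 = s → q F ≤ e → F ≤ g := fun F a1 a2 =>
    g3 F (FH F H1 a1 i1 a2 i3) (FH F H2 a1 i2 a2 i4)
  have gs : σ g = s := by
    have c1 := big g (gF F1 f1 f3) (gF F2 f2 f4)
    have c2 := h.tl.le g1
    by_contra c
    exact hH ((h.tl.eq g1 (by omega)).symm.trans (h.tl.eq g2 (by omega)))
  have gH : ∀ H, σ H = s + 1 → e ≤ q H → g ≤ H := by
    intro H a1 a2
    obtain ⟨m, m1, m2, m3⟩ := h.meet g H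
    have c1 := big m (m3 F1 (gF F1 f1 f3) (FH F1 H f1 a1 f3 a2))
      (m3 F2 (gF F2 f2 f4) (FH F2 H f2 a1 f4 a2))
    rw [← h.tl.eq m1 (by omega)]; exact m2
  refine ⟨g, gs, fun F a1 => ⟨gF F a1, fun a2 => ?_⟩, fun H a1 => ⟨gH H a1, fun a2 => ?_⟩⟩
  · refine lev h.tl h.con (s - 1) {F | q F ≤ e} (σ g) b g (by omega) ?_ F1 F (h.bot _)
      (gF F1 f1 f3) (h.bot _) a2 (by omega) (by omega) f3
    intro u v z z' _ j2 j3 j4 j5 j6 j7 j8 j9 j10 hz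
    have hz' : q z ≤ e := hz
    have ru := h.rk u (by omega)
    obtain ⟨A, A', hA, k1, k2, k3, k4, k5, k6⟩ :=
      below (q u) (((h.ord u z (by omega) (by omega)).mpr j2).trans hz') (by omega)
    obtain ⟨B, B1, B2, B3, B4, B5⟩ := h.tl.other ((h.ord u A (by omega) (by omega)).mp k3)
      (gF A k1 k5) (by omega) (by omega)
    have eA : A' = B := (B5 A' ((h.ord u A' (by omega) (by omega)).mp k4) (gF A' k2 k6)
      (by omega)).resolve_left hA.symm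
    rcases B5 z' j3 (j5.trans j6) (by omega) with rfl | rfl
    · exact k5
    · rw [← eA]; exact k6
  · refine lev h.tl h.con (s + 1) {H | e ≤ q H} (σ t) g t (by omega) ?_ H1 H g1
      (h.top _) a2 (h.top _) i1 a1 i3
    intro u v z z' j1 j2 j3 j4 j5 _ j7 j8 j9 j10 hz
    have hz' : e ≤ q z := hz
    have rv := h.rk v (by omega)
    obtain ⟨A, A', hA, k1, k2, k3, k4, k5, k6⟩ :=
      above (q v) (hz'.trans ((h.ord z v (by omega) (by omega)).mpr j4)) (by omega)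
    obtain ⟨B, B1, B2, B3, B4, B5⟩ := h.tl.other (gH A k1 k3)
      ((h.ord A v (by omega) (by omega)).mp k5) (by omega) (by omega)
    have eA : A' = B := (B5 A' (gH A' k2 k4) ((h.ord A' v (by omega) (by omega)).mp k6)
      (by omega)).resolve_left hA.symm
    rcases B5 z' (j1.trans j3) j5 (by omega) with rfl | rfl
    · exact k3
    · rw [← eA]; exact k4

end

end Pool.Agent.H.MP_492a05_co
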