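import Mathlib
import Pool.Agent.H.MP_492a05_co.A

set_option autoImplicit false

namespace Pool.Agent.H.MP_492a05_co

open Finset Classical

section
variable {L Q : Type*} [PartialOrder L] [PartialOrder Q] [Fintype Q] {σ : L → ℕ} {ρ : Q → ℕ}
  {s : ℕ} {q : L → Q} {b t : L}

noncomputable def lv (ρ : Q → ℕ) (x y : Q) (k : ℕ) : Finset Q :=
  univ.filter fun z => x ≤ z ∧ z ≤ y ∧ ρ z = k

noncomputable def fib (ρ : Q → ℕ) (s : ℕ) (G : Q → L) (g : L) : Finset Q :=
  univ.filter fun e => ρ e = s ∧ G e = g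

lemma lv_two (h : Thin ρ) {x y : Q} (hxy : x ≤ y) (hr : ρ y = ρ x + 2) :
    #(lv ρ x y (ρ x + 1)) = 2 := by
  obtain ⟨a, a', ha, hz⟩ := h.dia x y hxy hr
  rw [card_eq_two]
  refine ⟨a, a', ha, ?_⟩
  ext z
  simp only [lv, mem_filter, mem_univ, true_and, mem_insert, mem_singleton]
  exact hz z

lemma Setup.dsum (h : Setup σ ρ s q b t) {G : Q → L}
    (hG : ∀ e, ρ e = s → σ (G e) = s ∧ (∀ F, σ F + 1 = s → (q F ≤ e ↔ F ≤ G e)) ∧
      (∀ H, σ H = s + 1 → (e ≤ q H ↔ G e ≤ H)))
    {F H g g' : L} (r1 : σ F + 1 = s) (r2 : σ H = s + 1) (r3 : σ g = s) (r4 : σ g' = s)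
    (hg : g ≠ g') (l1 : F ≤ g) (l2 : F ≤ g') (l3 : g ≤ H) (l4 : g' ≤ H) :
    #(fib ρ s G g) + #(fib ρ s G g') = 2 := by
  have e1 := h.rk F (by omega)
  have e2 := h.rk H (by omega)
  have := lv_two h.tq ((h.ord F H (by omega) (by omega)).mpr (l1.trans l3)) (by omega)
  rw [← this, ← card_union_of_disjoint]
  · congr 1
    ext e
    simp only [lv, fib, mem_union, mem_filter, mem_univ, true_and]
    obtain ⟨B, B1, B2, B3, B4, B5⟩ := h.tl.other l1 l3 (by omega) (by omega)
    have eB : g' = B := (B5 g' l2 l4 (by omega)).resolve_left hg.symm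
    constructor
    · rintro (⟨a1, rfl⟩ | ⟨a1, rfl⟩)
      · exact ⟨((hG e a1).2.1 F r1).mpr l1, ((hG e a1).2.2 H r2).mpr l3, by omega⟩
      · exact ⟨((hG e a1).2.1 F r1).mpr l2, ((hG e a1).2.2 H r2).mpr l4, by omega⟩
    · rintro ⟨a1, a2, a3⟩
      have a4 : ρ e = s := by omega
      have := (hG e a4).1
      rcases B5 (G e) (((hG e a4).2.1 F r1).mp a1) (((hG e a4).2.2 H r2).mp a2) (by omega) with
        c | c
      · exact Or.inl ⟨a4, c⟩
      · exact Or.inr ⟨a4, c.trans eB.symm⟩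
  · rw [disjoint_left]
    intro e a1 a2
    simp only [fib, mem_filter, mem_univ, true_and] at a1 a2
    exact hg (a1.2.symm.trans a2.2)

lemma Setup.one (h : Setup σ ρ s q b t) {G : Q → L}
    (hG : ∀ e, ρ e = s → σ (G e) = s ∧ (∀ F, σ F + 1 = s → (q F ≤ e ↔ F ≤ G e)) ∧
      (∀ H, σ H = s + 1 → (e ≤ q H ↔ G e ≤ H)))
    (hE : ∀ x y : Q, x ≤ y → ρ y = ρ x + 4 →
      #(lv ρ x y (ρ x + 1)) + #(lv ρ x y (ρ x + 3)) = #(lv ρ x y (ρ x + 2)) + 2)
    (g0 : L) (hg0 : σ g0 = s) : #(fib ρ s G g0) = 1 := by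
  by_contra hne
  have hb := h.hb
  have ht := h.ht
  obtain ⟨x, -, x2, x3⟩ := h.tl.mid' (s - 2) (h.bot g0) (by omega) (by omega)
  obtain ⟨y, y1, -, y3⟩ := h.tl.mid' (s + 2) (h.top g0) (by omega) (by omega)
  have rx := h.rk x (by omega)
  have ry := h.rk y (by omega)
  have all : ∀ g, x ≤ g → g ≤ y → σ g = s → #(fib ρ s G g) ≠ 1 := by
    intro g a1 a2 a3
    refine lev h.tl h.con s {g | #(fib ρ s G g) ≠ 1} (σ y) x y (by omega) ?_ g0 g x2 y1 a1 a2
      hg0 a3 hne
    intro u v z z' _ j2 j3 j4 j5 _ j7 j8 j9 j10 hz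
    by_cases c : z = z'
    · rw [← c]; exact hz
    have := h.dsum hG j7 j8 j9 j10 c j2 j3 j4 j5
    have hz' : #(fib ρ s G z) ≠ 1 := hz
    show #(fib ρ s G z') ≠ 1
    omega
  have xy : q x ≤ q y := (h.ord x y (by omega) (by omega)).mpr (x2.trans y1)
  have E := hE (q x) (q y) xy (by omega)
  -- four elements from two full fibres
  have four : ∀ (g1 g2 : L) (T : Finset Q), g1 ≠ g2 → #(fib ρ s G g1) = 2 → #(fib ρ s G g2) = 2 →
      fib ρ s G g1 ⊆ T → fib ρ s G g2 ⊆ T → 4 ≤ #T := by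
    intro g1 g2 T hg c1 c2 s1 s2
    have : Disjoint (fib ρ s G g1) (fib ρ s G g2) := by
      rw [disjoint_left]
      intro e a1 a2
      simp only [fib, mem_filter, mem_univ, true_and] at a1 a2
      exact hg (a1.2.symm.trans a2.2)
    have c3 := card_union_of_disjoint this
    have := card_le_card (union_subset s1 s2)
    omega
  have pos : ∀ e, ρ e = s → 1 ≤ #(fib ρ s G (G e)) := fun e he =>
    card_pos.mpr ⟨e, by simp [fib, he]⟩
  have c1 : #(lv ρ (q x) (q y) (ρ (q x) + 1)) * 4 ≤ #(lv ρ (q x) (q y) (ρ (q x) + 2)) * 2 := by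
    refine card_mul_le_card_mul (fun a e => a ≤ e) ?_ ?_
    · intro a ha
      simp only [lv, mem_filter, mem_univ, true_and] at ha
      obtain ⟨a1, a2, a3⟩ := ha
      obtain ⟨F, F1, rfl⟩ := h.sur a (by omega)
      have rF := h.rk F F1
      have xF := (h.ord x F (by omega) F1).mp a1
      have Fy := (h.ord F y F1 (by omega)).mp a2
      obtain ⟨e, e1, e2, e3⟩ := h.tq.mid' s a2 (by omega) (by omega)
      obtain ⟨v, v1, v2, v3⟩ := h.tq.mid' (s + 1) e2 (by omega) (by omega)
      obtain ⟨H, H1, rfl⟩ := h.sur v (by omega)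
      have rH := h.rk H H1
      have Hy := (h.ord H y H1 (by omega)).mp v2
      have sg := (hG e e3).1
      have l1 := ((hG e e3).2.1 F (by omega)).mp e1
      have l2 := ((hG e e3).2.2 H (by omega)).mp v1
      obtain ⟨g', i1, i2, i3, i4, -⟩ := h.tl.other l1 l2 (by omega) (by omega)
      have d1 := h.dsum hG (F := F) (H := H) (by omega) (by omega) sg (by omega) i1.symm l1 i2 l2 i3
      have n1 := all (G e) (xF.trans l1) (l2.trans Hy) sg
      have p1 := pos e e3
      obtain ⟨H2, j1, j2, j3, j4, -⟩ := h.tl.other i3 Hy (by omega) (by omega)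
      obtain ⟨g2, k1, k2, k3, k4, -⟩ := h.tl.other i2 j2 (by omega) (by omega)
      have d2 := h.dsum hG (F := F) (H := H2) (by omega) (by omega) (g := g') (g' := g2) (by omega)
        (by omega) k1.symm i2 k2 j2 k3
      have sub : ∀ g K, F ≤ g → g ≤ K → K ≤ y → σ K = s + 1 → fib ρ s G g ⊆
          bipartiteAbove (fun a e => a ≤ e) (lv ρ (q x) (q y) (ρ (q x) + 2)) (q F) := by
        intro g K m1 m2 m3 m4 z hz
        simp only [fib, mem_filter, mem_univ, true_and] at hz
        obtain ⟨z1, rfl⟩ := hz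
        have z2 := ((hG z z1).2.1 F (by omega)).mpr m1
        have z3 := ((hG z z1).2.2 K m4).mpr m2
        simp only [mem_bipartiteAbove, lv, mem_filter, mem_univ, true_and]
        exact ⟨⟨a1.trans z2, z3.trans ((h.ord K y (by omega) (by omega)).mpr m3), by omega⟩, z2⟩
      refine four (G e) g2 _ ?_ (by omega) (by omega) (sub _ H l1 l2 Hy (by omega))
        (sub _ H2 k2 k3 j3 (by omega))
      intro c
      exact h.two (k := s) i1 j1 (by omega) sg (by omega) (by omega) j2 i3 (c ▸ k3) l2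
    · intro e he
      simp only [lv, mem_filter, mem_univ, true_and] at he
      obtain ⟨a1, a2, a3⟩ := he
      rw [← lv_two h.tq a1 a3]
      refine card_le_card fun z hz => ?_
      simp only [mem_bipartiteBelow, lv, mem_filter, mem_univ, true_and] at hz ⊢
      exact ⟨hz.1.1, hz.2, hz.1.2.2⟩
  have c2 : #(lv ρ (q x) (q y) (ρ (q x) + 3)) * 4 ≤ #(lv ρ (q x) (q y) (ρ (q x) + 2)) * 2 := by
    refine card_mul_le_card_mul (fun a e => e ≤ a) ?_ ?_
    · intro a ha
      simp only [lv, mem_filter, mem_univ, true_and] at ha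
      obtain ⟨a1, a2, a3⟩ := ha
      obtain ⟨H, H1, rfl⟩ := h.sur a (by omega)
      have rH := h.rk H H1
      have xH := (h.ord x H (by omega) H1).mp a1
      have Hy := (h.ord H y H1 (by omega)).mp a2
      obtain ⟨e, e1, e2, e3⟩ := h.tq.mid' s a1 (by omega) (by omega)
      obtain ⟨v, v1, v2, v3⟩ := h.tq.mid' (s - 1) e1 (by omega) (by omega)
      obtain ⟨F, F1, rfl⟩ := h.sur v (by omega)
      have rF := h.rk F F1
      have xF := (h.ord x F (by omega) F1).mp v1
      have sg := (hG e e3).1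
      have l1 := ((hG e e3).2.1 F (by omega)).mp v2
      have l2 := ((hG e e3).2.2 H (by omega)).mp e2
      obtain ⟨g', i1, i2, i3, i4, -⟩ := h.tl.other l1 l2 (by omega) (by omega)
      have d1 := h.dsum hG (F := F) (H := H) (by omega) (by omega) sg (by omega) i1.symm l1 i2 l2 i3
      have n1 := all (G e) (xF.trans l1) (l2.trans Hy) sg
      have p1 := pos e e3
      obtain ⟨F2, j1, j2, j3, j4, -⟩ := h.tl.other xF i2 (by omega) (by omega)
      obtain ⟨g2, k1, k2, k3, k4, -⟩ := h.tl.other j3 i3 (by omega) (by omega)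
      have d2 := h.dsum hG (F := F2) (H := H) (by omega) (by omega) (g := g') (g' := g2) (by omega)
        (by omega) k1.symm j3 k2 i3 k3
      have sub : ∀ g K, g ≤ H → K ≤ g → x ≤ K → σ K + 1 = s → fib ρ s G g ⊆
          bipartiteAbove (fun a e => e ≤ a) (lv ρ (q x) (q y) (ρ (q x) + 2)) (q H) := by
        intro g K m1 m2 m3 m4 z hz
        simp only [fib, mem_filter, mem_univ, true_and] at hz
        obtain ⟨z1, rfl⟩ := hz
        have z2 := ((hG z z1).2.1 K m4).mpr m2
        have z3 := ((hG z z1).2.2 H (by omega)).mpr m1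
        simp only [mem_bipartiteAbove, lv, mem_filter, mem_univ, true_and]
        exact ⟨⟨((h.ord x K (by omega) (by omega)).mpr m3).trans z2, z3.trans a2, by omega⟩, z3⟩
      refine four (G e) g2 _ ?_ (by omega) (by omega) (sub _ F l2 l1 xF (by omega))
        (sub _ F2 k3 k2 j2 (by omega))
      intro c
      exact h.two (k := s - 1) j1 i1 (by omega) (by omega) (by omega) (by omega) j3 (c ▸ k2) i2 l1
    · intro e he
      simp only [lv, mem_filter, mem_univ, true_and] at he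
      obtain ⟨a1, a2, a3⟩ := he
      rw [← lv_two h.tq a2 (by omega)]
      refine card_le_card fun z hz => ?_
      simp only [mem_bipartiteBelow, lv, mem_filter, mem_univ, true_and] at hz ⊢
      exact ⟨hz.2, hz.1.2.1, by omega⟩
  omega

theorem Setup.iso (h : Setup σ ρ s q b t)
    (hE : ∀ x y : Q, x ≤ y → ρ y = ρ x + 4 →
      #(lv ρ x y (ρ x + 1)) + #(lv ρ x y (ρ x + 3)) = #(lv ρ x y (ρ x + 2)) + 2) :
    ∃ f : Q ≃o L, ∀ x, σ x ≠ s → f (q x) = x := by
  have hex : ∀ e : Q, ∃ g : L, (ρ e = s → σ g = s ∧ (∀ F, σ F + 1 = s → (q F ≤ e ↔ F ≤ g)) ∧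
      (∀ H, σ H = s + 1 → (e ≤ q H ↔ g ≤ H))) ∧ (ρ e ≠ s → σ g ≠ s ∧ q g = e) := by
    intro e
    by_cases he : ρ e = s
    · obtain ⟨g, hg⟩ := h.exG e he
      exact ⟨g, fun _ => hg, fun c => absurd he c⟩
    · obtain ⟨g, hg⟩ := h.sur e he
      exact ⟨g, fun c => absurd c he, fun _ => hg⟩
  choose G hG hG' using hex
  have hb := h.hb
  have one := h.one hG hE
  have Gq : ∀ x, σ x ≠ s → G (q x) = x := by
    intro x hx
    have r := h.rk x hx
    obtain ⟨a1, a2⟩ := hG' (q x) (by omega)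
    exact le_antisymm ((h.ord _ _ a1 hx).mp a2.le) ((h.ord _ _ hx a1).mp a2.ge)
  have key : ∀ e e', G e ≤ G e' ↔ e ≤ e' := by
    intro e e'
    by_cases he : ρ e = s <;> by_cases he' : ρ e' = s
    · have s1 := (hG e he).1
      have s2 := (hG e' he').1
      constructor
      · intro c
        have c' := h.tl.eq c (by omega)
        obtain ⟨a, ha⟩ := card_eq_one.mp (one _ s1)
        have m1 : e ∈ fib ρ s G (G e) := by simp [fib, he]
        have m2 : e' ∈ fib ρ s G (G e) := by simp [fib, he', c']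
        rw [ha, mem_singleton] at m1 m2
        rw [m1, m2]
      · intro c
        rw [h.tq.eq c (by omega)]
    · obtain ⟨a1, a2⟩ := hG' e' he'
      have s1 := (hG e he).1
      have r := h.rk _ a1
      rw [a2] at r
      constructor
      · intro c
        have := h.tl.le c
        obtain ⟨H, H1, H2, H3⟩ := h.tl.mid' (s + 1) c (by omega) (by omega)
        rw [← a2]
        exact (((hG e he).2.2 H H3).mpr H1).trans ((h.ord H _ (by omega) a1).mpr H2)
      · intro c
        have := h.tq.le c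
        obtain ⟨v, v1, v2, v3⟩ := h.tq.mid' (s + 1) c (by omega) (by omega)
        obtain ⟨H, H1, rfl⟩ := h.sur v (by omega)
        have := h.rk H H1
        rw [← a2] at v2
        exact (((hG e he).2.2 H (by omega)).mp v1).trans ((h.ord H _ H1 a1).mp v2)
    · obtain ⟨a1, a2⟩ := hG' e he
      have s1 := (hG e' he').1
      have r := h.rk _ a1
      rw [a2] at r
      constructor
      · intro c
        have := h.tl.le c
        obtain ⟨F, H1, H2, H3⟩ := h.tl.mid' (s - 1) c (by omega) (by omega)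
        rw [← a2]
        exact ((h.ord _ F a1 (by omega)).mpr H1).trans (((hG e' he').2.1 F (by omega)).mpr H2)
      · intro c
        have := h.tq.le c
        obtain ⟨v, v1, v2, v3⟩ := h.tq.mid' (s - 1) c (by omega) (by omega)
        obtain ⟨F, H1, rfl⟩ := h.sur v (by omega)
        have := h.rk F H1
        rw [← a2] at v1
        exact ((h.ord _ F a1 H1).mp v1).trans (((hG e' he').2.1 F (by omega)).mp v2)
    · obtain ⟨a1, a2⟩ := hG' e he
      obtain ⟨b1, b2⟩ := hG' e' he'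
      rw [← h.ord _ _ a1 b1, a2, b2]
  have sur : Function.Surjective G := by
    intro g
    by_cases hg : σ g = s
    · obtain ⟨a, ha⟩ := card_eq_one.mp (one _ hg)
      have : a ∈ fib ρ s G g := by rw [ha]; exact mem_singleton_self a
      simp only [fib, mem_filter, mem_univ, true_and] at this
      exact ⟨a, this.2⟩
    · exact ⟨q g, Gq g hg⟩
  exact ⟨RelIso.ofSurjective (OrderEmbedding.ofMapLEIff G key) sur, Gq⟩

lemma euler_sum (mono : ∀ x y : Q, x < y → ρ x < ρ y) {x y : Q} {n : ℕ} (hr : ρ y = ρ x + n)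
    (hc : {z | x ≤ z ∧ z ≤ y ∧ Even (ρ z)}.ncard = {z | x ≤ z ∧ z ≤ y ∧ Odd (ρ z)}.ncard) :
    ∑ k ∈ range (n + 1), (-1 : ℤ) ^ k * #(lv ρ x y (ρ x + k)) = 0 := by
  have le : ∀ u v : Q, u ≤ v → ρ u ≤ ρ v := fun u v huv => by
    rcases huv.eq_or_lt with rfl | hl
    · exact le_rfl
    · exact (mono _ _ hl).le
  set I : Finset Q := univ.filter fun z => x ≤ z ∧ z ≤ y with hI
  have e1 : {z | x ≤ z ∧ z ≤ y ∧ Even (ρ z)} = ↑(I.filter fun z => Even (ρ z)) := by
    ext z; simp [hI, and_assoc]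
  have e2 : {z | x ≤ z ∧ z ≤ y ∧ Odd (ρ z)} = ↑(I.filter fun z => ¬ Even (ρ z)) := by
    ext z; simp [hI, and_assoc]
  rw [e1, e2, Set.ncard_coe_finset, Set.ncard_coe_finset] at hc
  have s1 : ∑ z ∈ I, (-1 : ℤ) ^ (ρ z) = 0 := by
    rw [← sum_filter_add_sum_filter_not I (fun z => Even (ρ z)),
      sum_congr rfl (g := fun _ => (1 : ℤ)) (fun z hz => (mem_filter.mp hz).2.neg_one_pow),
      sum_congr rfl (s₁ := I.filter fun z => ¬ Even (ρ z)) (g := fun _ => (-1 : ℤ))
        (fun z hz => (Nat.not_even_iff_odd.mp (mem_filter.mp hz).2).neg_one_pow)]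
    simp [hc]
  have s2 := sum_fiberwise_of_maps_to (s := I) (t := range (n + 1)) (g := fun z => ρ z - ρ x)
    (fun z hz => by
      simp only [hI, mem_filter, mem_univ, true_and] at hz
      have := le _ _ hz.1
      have := le _ _ hz.2
      simp only [mem_range]; omega) (fun z => (-1 : ℤ) ^ (ρ z))
  rw [s1] at s2
  have s3 : (-1 : ℤ) ^ (ρ x) * ∑ k ∈ range (n + 1), (-1 : ℤ) ^ k * #(lv ρ x y (ρ x + k)) = 0 := by
    rw [← s2, mul_sum]
    refine sum_congr rfl fun k _ => ?_
    have : (I.filter fun z => ρ z - ρ x = k) = lv ρ x y (ρ x + k) := by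
      ext z
      simp only [hI, lv, mem_filter, mem_univ, true_and]
      constructor
      · rintro ⟨⟨a1, a2⟩, a3⟩
        have := le _ _ a1
        exact ⟨a1, a2, by omega⟩
      · rintro ⟨a1, a2, a3⟩
        exact ⟨⟨a1, a2⟩, by omega⟩
    rw [this, sum_congr rfl (g := fun _ => (-1 : ℤ) ^ (ρ x + k)) (fun z hz => by
      simp only [lv, mem_filter, mem_univ, true_and] at hz
      rw [hz.2.2])]
    simp [pow_add]; ring
  exact (mul_eq_zero.mp s3).resolve_left (pow_ne_zero _ (by norm_num))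

lemma lv_ends (mono : ∀ x y : Q, x < y → ρ x < ρ y) {x y : Q} (hxy : x ≤ y) :
    #(lv ρ x y (ρ x)) = 1 ∧ #(lv ρ x y (ρ y)) = 1 := by
  constructor
  · rw [card_eq_one]
    refine ⟨x, ?_⟩
    ext z
    simp only [lv, mem_filter, mem_univ, true_and, mem_singleton]
    constructor
    · rintro ⟨a1, -, a3⟩
      by_contra c
      have := mono x z (lt_of_le_of_ne a1 (Ne.symm c))
      omega
    · rintro rfl; exact ⟨le_rfl, hxy, rfl⟩
  · rw [card_eq_one]
    refine ⟨y, ?_⟩
    ext z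
    simp only [lv, mem_filter, mem_univ, true_and, mem_singleton]
    constructor
    · rintro ⟨-, a1, a3⟩
      by_contra c
      have := mono z y (lt_of_le_of_ne a1 c)
      omega
    · rintro rfl; exact ⟨hxy, le_rfl, rfl⟩

lemma eul (cov : ∀ x y : Q, x ⋖ y → ρ y = ρ x + 1)
    (hc : ∀ x y : Q, x < y →
      {z | x ≤ z ∧ z ≤ y ∧ Even (ρ z)}.ncard = {z | x ≤ z ∧ z ≤ y ∧ Odd (ρ z)}.ncard) :
    Thin ρ ∧ ∀ x y : Q, x ≤ y → ρ y = ρ x + 4 →
      #(lv ρ x y (ρ x + 1)) + #(lv ρ x y (ρ x + 3)) = #(lv ρ x y (ρ x + 2)) + 2 := by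
  have mono : ∀ x y : Q, x < y → ρ x < ρ y := by
    let _ : LocallyFiniteOrder Q := Fintype.toLocallyFiniteOrder
    intro x y hxy
    exact (strictMono_iff_forall_covBy (f := ρ)).mpr (fun a c hac => by rw [cov a c hac]; omega) hxy
  refine ⟨⟨mono, fun x y hxy hr => ?_, fun x y hxy hr => ?_⟩, fun x y hxy hr => ?_⟩
  · by_contra c
    push Not at c
    have := cov x y ⟨hxy, fun z hz => c z hz⟩
    omega
  · have := euler_sum mono hr (hc x y (Thin.lt hxy (ρ := ρ) (by omega)))
    obtain ⟨e1, e2⟩ := lv_ends mono hxy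
    rw [hr] at e2
    simp only [sum_range_succ, range_zero, sum_empty, add_zero, e1, e2] at this
    have c : #(lv ρ x y (ρ x + 1)) = 2 := by omega
    obtain ⟨a, a', ha, hz⟩ := card_eq_two.mp c
    refine ⟨a, a', ha, fun z => ?_⟩
    have := Finset.ext_iff.mp hz z
    simpa [lv] using this
  · have := euler_sum mono hr (hc x y (Thin.lt hxy (ρ := ρ) (by omega)))
    obtain ⟨e1, e2⟩ := lv_ends mono hxy
    rw [hr] at e2
    simp only [sum_range_succ, range_zero, sum_empty, add_zero, e1, e2] at this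
    omega

end

end Pool.Agent.H.MP_492a05_co
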