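import Mathlib
import Pool.Agent.H.MP_492a05_co.A

set_option autoImplicit false

namespace Pool.Agent.H.MP_492a05_co

open Module Submodule Filter Topology

variable {E : Type*} [AddCommGroup E] [Module ℝ E]

def Fc (V F : Set E) : Prop := ∃ φ : Dual ℝ (ℝ × E), (∀ v ∈ V, 0 ≤ φ (1, v)) ∧
  F = {x ∈ convexHull ℝ V | φ (1, x) = 0}

def sp (F : Set E) : Submodule ℝ (ℝ × E) := span ℝ ((fun x => ((1 : ℝ), x)) '' F)

lemma mem_sp {F : Set E} {x : E} (hx : x ∈ F) : ((1 : ℝ), x) ∈ sp F := subset_span ⟨x, hx, rfl⟩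

lemma sp_zero {F : Set E} {φ : Dual ℝ (ℝ × E)} (h : ∀ x ∈ F, φ (1, x) = 0) :
    ∀ w ∈ sp F, φ w = 0 := by
  have : sp F ≤ LinearMap.ker φ := span_le.mpr (by rintro _ ⟨x, hx, rfl⟩; exact h x hx)
  exact fun w hw => this hw

lemma aff (φ : Dual ℝ (ℝ × E)) (x y : E) {a b : ℝ} (hab : a + b = 1) :
    φ (1, a • x + b • y) = a * φ (1, x) + b * φ (1, y) := by
  have : ((1 : ℝ), a • x + b • y) = a • ((1 : ℝ), x) + b • ((1 : ℝ), y) := by
    ext <;> simp [hab]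
  rw [this, map_add, map_smul, map_smul]; rfl

lemma conv_zero {T : Set E} (hT : Convex ℝ T) (φ : Dual ℝ (ℝ × E)) :
    Convex ℝ {x ∈ T | φ (1, x) = 0} := by
  intro x hx y hy a b ha hb hab
  exact ⟨hT hx.1 hy.1 ha hb hab, by rw [aff φ x y hab, hx.2, hy.2]; simp⟩

lemma zsub {V C : Set E} {φ : Dual ℝ (ℝ × E)} (h : ∀ v ∈ V, 0 ≤ φ (1, v)) (hC : Convex ℝ C)
    (hV : ∀ v ∈ V, φ (1, v) = 0 → v ∈ C) :
    ∀ x ∈ convexHull ℝ V, 0 ≤ φ (1, x) ∧ (φ (1, x) = 0 → x ∈ C) := by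
  intro x hx
  refine convexHull_min (t := {x | 0 ≤ φ (1, x) ∧ (φ (1, x) = 0 → x ∈ C)})
    (fun v hv => ⟨h v hv, hV v hv⟩) ?_ hx
  intro x hx y hy a b ha hb hab
  have p1 := mul_nonneg ha hx.1
  have p2 := mul_nonneg hb hy.1
  refine ⟨by rw [aff φ x y hab]; linarith, fun h0 => ?_⟩
  rw [aff φ x y hab] at h0
  rcases ha.eq_or_lt with rfl | ha'
  · have : b = 1 := by linarith
    subst this
    simpa using hy.2 (by linarith)
  rcases hb.eq_or_lt with rfl | hb'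
  · have : a = 1 := by linarith
    subst this
    simpa using hx.2 (by linarith)
  have e1 : φ (1, x) = 0 := (mul_eq_zero.mp (by linarith : a * φ (1, x) = 0)).resolve_left ha'.ne'
  have e2 : φ (1, y) = 0 := (mul_eq_zero.mp (by linarith : b * φ (1, y) = 0)).resolve_left hb'.ne'
  exact hC (hx.2 e1) (hy.2 e2) ha hb hab

lemma Fc.conv {V F : Set E} (h : Fc V F) : Convex ℝ F := by
  obtain ⟨φ, -, rfl⟩ := h
  exact conv_zero (convex_convexHull ℝ V) φ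

lemma Fc.sub {V F : Set E} (h : Fc V F) : F ⊆ convexHull ℝ V := by
  obtain ⟨φ, -, rfl⟩ := h
  exact fun x hx => hx.1

lemma Fc.gen {V F C : Set E} (h : Fc V F) (hC : Convex ℝ C) (hV : ∀ v ∈ V, v ∈ F → v ∈ C) :
    F ⊆ C := by
  obtain ⟨φ, h1, rfl⟩ := h
  exact fun x hx => (zsub h1 hC (fun v hv h0 => hV v hv ⟨subset_convexHull ℝ V hv, h0⟩) x
    hx.1).2 hx.2

lemma Fc.trans {V T : Set E} (hV : V.Finite) (h : Fc V T) {χ : Dual ℝ (ℝ × E)}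
    (hχ : ∀ v ∈ V, v ∈ T → 0 ≤ χ (1, v)) : Fc V {x ∈ T | χ (1, x) = 0} := by
  have hc := h.conv
  obtain ⟨θ, h1, hT⟩ := h
  obtain ⟨M, hM⟩ := (hV.image fun v => -χ (1, v) / θ (1, v)).bddAbove
  have key : ∀ v ∈ V, v ∉ T → 0 < χ (1, v) + (M + 1) * θ (1, v) := by
    intro v hv hn
    have p : 0 < θ (1, v) := lt_of_le_of_ne (h1 v hv) fun c => hn (by
      rw [hT]; exact ⟨subset_convexHull ℝ V hv, c.symm⟩)
    have := (div_le_iff₀ p).mp (hM ⟨v, hv, rfl⟩)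
    nlinarith
  have zT : ∀ x ∈ T, θ (1, x) = 0 := fun x hx => by rw [hT] at hx; exact hx.2
  have nn : ∀ v ∈ V, 0 ≤ (χ + (M + 1) • θ) (1, v) := by
    intro v hv
    by_cases c : v ∈ T
    · simpa [zT v c] using hχ v hv c
    · simpa using (key v hv c).le
  refine ⟨χ + (M + 1) • θ, nn, ?_⟩
  ext x
  constructor
  · rintro ⟨a1, a2⟩
    refine ⟨by rw [hT] at a1; exact a1.1, by simp [a2, zT x a1]⟩
  · rintro ⟨a1, a2⟩
    refine (zsub nn (conv_zero hc χ) (fun v hv h0 => ?_) x a1).2 a2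
    by_cases c : v ∈ T
    · exact ⟨c, by simpa [zT v c] using h0⟩
    · have := key v hv c
      simp at h0
      linarith

lemma rk_ker [FiniteDimensional ℝ E] (M : Submodule ℝ (ℝ × E)) (φ : Dual ℝ (ℝ × E)) {w : ℝ × E}
    (hw : w ∈ M) (h0 : φ w ≠ 0) :
    finrank ℝ (M ⊓ LinearMap.ker φ : Submodule ℝ (ℝ × E)) + 1 = finrank ℝ M := by
  rw [← finrank_sup_span_singleton (p := M ⊓ LinearMap.ker φ) (v := w) (fun c => h0 c.2)]
  suffices e : (M ⊓ LinearMap.ker φ) ⊔ span ℝ {w} = M by rw [e]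
  apply le_antisymm
  · exact sup_le inf_le_left ((span_singleton_le_iff_mem _ _).mpr hw)
  · intro u hu
    have : u = (u - (φ u / φ w) • w) + (φ u / φ w) • w := by simp
    rw [this]
    refine add_mem_sup ⟨sub_mem hu (smul_mem _ _ hw), ?_⟩ (smul_mem _ _ (mem_span_singleton_self w))
    simp [h0]

structure Ctx (V S T : Set E) (φ : Dual ℝ (ℝ × E)) : Prop where
  fin : V.Finite
  pos : ∀ v ∈ V, 0 ≤ φ (1, v)
  hS : S = {x ∈ convexHull ℝ V | φ (1, x) = 0}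
  hT : Fc V T
  sub : S ⊆ T
  ne : S ≠ T

def Sup (V S T : Set E) (φ ψ : Dual ℝ (ℝ × E)) (U : Set E) : Prop :=
  ∃ t : ℝ, (∀ v ∈ V, v ∈ T → t * φ (1, v) ≤ ψ (1, v)) ∧ U = {x ∈ T | ψ (1, x) = t * φ (1, x)} ∧
    ∃ v ∈ V, v ∈ U ∧ v ∉ S

def KK (T : Set E) (φ : Dual ℝ (ℝ × E)) : Submodule ℝ (ℝ × E) := sp T ⊓ LinearMap.ker φ

section
variable {V S T U U' : Set E} {φ ψ χ : Dual ℝ (ℝ × E)}

lemma Ctx.fS (c : Ctx V S T φ) : Fc V S := ⟨φ, c.pos, c.hS⟩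

lemma Ctx.zero (c : Ctx V S T φ) {x : E} (hx : x ∈ S) : φ (1, x) = 0 := by
  rw [c.hS] at hx; exact hx.2

lemma Ctx.vpos (c : Ctx V S T φ) {v : E} (hv : v ∈ V) (hn : v ∉ S) : 0 < φ (1, v) :=
  lt_of_le_of_ne (c.pos v hv) fun e => hn (by rw [c.hS]; exact ⟨subset_convexHull ℝ V hv, e.symm⟩)

lemma exv (hU : Fc V U) (hS : Fc V S) (h : ¬ U ⊆ S) : ∃ v ∈ V, v ∈ U ∧ v ∉ S := by
  by_contra c
  push Not at c
  exact h (hU.gen hS.conv c)

lemma Ctx.exv (c : Ctx V S T φ) : ∃ v ∈ V, v ∈ T ∧ v ∉ S :=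
  MP_492a05_co.exv c.hT c.fS fun h => c.ne (c.sub.antisymm h)

lemma Ctx.leK (c : Ctx V S T φ) : sp S ≤ KK T φ :=
  le_inf (span_mono (Set.image_mono c.sub)) (fun w hw => sp_zero (fun _ hx => c.zero hx) w hw)

lemma Ctx.rkK [FiniteDimensional ℝ E] (c : Ctx V S T φ) :
    finrank ℝ (KK T φ) + 1 = finrank ℝ (sp T) := by
  obtain ⟨v, v1, v2, v3⟩ := c.exv
  exact rk_ker _ _ (mem_sp v2) (c.vpos v1 v3).ne'

lemma Ctx.prop (c : Ctx V S T φ) (h : ∀ w ∈ KK T φ, χ w = 0) :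
    ∃ t : ℝ, ∀ x ∈ T, χ (1, x) = t * φ (1, x) := by
  obtain ⟨v, v1, v2, v3⟩ := c.exv
  have p := (c.vpos v1 v3).ne'
  refine ⟨χ (1, v) / φ (1, v), fun x hx => ?_⟩
  have := h ((1, x) - (φ (1, x) / φ (1, v)) • (1, v))
    ⟨sub_mem (mem_sp hx) (smul_mem _ _ (mem_sp v2)), by
      show φ _ = 0
      rw [map_sub, map_smul, smul_eq_mul]; field_simp; ring⟩
  rw [map_sub, map_smul, smul_eq_mul] at this
  field_simp at this ⊢
  linarith

lemma Ctx.exSup (c : Ctx V S T φ) (hψ : ∀ x ∈ S, ψ (1, x) = 0) : ∃ U, Sup V S T φ ψ U := by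
  obtain ⟨v, v1, v2, v3⟩ := c.exv
  obtain ⟨m, ⟨m1, m2, m3⟩, hm⟩ := Set.exists_min_image {v | v ∈ V ∧ v ∈ T ∧ v ∉ S}
    (fun v => ψ (1, v) / φ (1, v)) (c.fin.subset fun v hv => hv.1) ⟨v, v1, v2, v3⟩
  refine ⟨_, ψ (1, m) / φ (1, m), fun u u1 u2 => ?_, rfl, m, m1, ⟨m2, ?_⟩, m3⟩
  · by_cases u3 : u ∈ S
    · rw [c.zero u3, hψ u u3]; simp
    · exact (le_div_iff₀ (c.vpos u1 u3)).mp (hm u ⟨u1, u2, u3⟩)
  · have := (c.vpos m1 m3).ne'
    field_simp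

lemma Ctx.face (c : Ctx V S T φ) (hψ : ∀ x ∈ S, ψ (1, x) = 0) (hK : ∃ w ∈ KK T φ, ψ w ≠ 0)
    (h : Sup V S T φ ψ U) : Fc V U ∧ S ⊂ U ∧ U ⊂ T := by
  obtain ⟨t, h1, h2, v, v1, v2, v3⟩ := h
  refine ⟨?_, ⟨fun x hx => ?_, fun a => v3 (a v2)⟩, ⟨by rw [h2]; exact fun x hx => hx.1, fun a => ?_⟩⟩
  · have := c.hT.trans c.fin (χ := ψ - t • φ) (fun u u1 u2 => by simpa using h1 u u1 u2)
    rw [h2]
    convert this using 4
    simp [sub_eq_zero]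
  · rw [h2]; exact ⟨c.sub hx, by rw [hψ x hx, c.zero hx]; simp⟩
  · obtain ⟨w, ⟨w1, w2⟩, w3⟩ := hK
    have := sp_zero (F := T) (φ := ψ - t • φ) (fun x hx => by
      have := a hx
      rw [h2] at this
      simpa [sub_eq_zero] using this.2) w w1
    have w4 : φ w = 0 := w2
    simp [w4] at this
    exact w3 this

lemma Ctx.uniq (c : Ctx V S T φ) (h : Sup V S T φ ψ U) (h' : Sup V S T φ ψ U') : U = U' := by
  obtain ⟨t, h1, h2, v, v1, v2, v3⟩ := h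
  obtain ⟨t', h1', h2', v', v1', v2', v3'⟩ := h'
  rw [h2] at v2
  rw [h2'] at v2'
  have a1 := h1' v v1 v2.1
  have a2 := h1 v' v1' v2'.1
  rw [v2.2] at a1
  rw [v2'.2] at a2
  have : t = t' := le_antisymm (le_of_mul_le_mul_right a2 (c.vpos v1' v3'))
    (le_of_mul_le_mul_right a1 (c.vpos v1 v3))
  rw [h2, h2', this]

lemma Ctx.congr (c : Ctx V S T φ) {a : ℝ} (ha : 0 < a) (hK : ∀ w ∈ KK T φ, χ w = a * ψ w)
    (h : Sup V S T φ ψ U) : Sup V S T φ χ U := by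
  obtain ⟨r, hr⟩ := c.prop (χ := χ - a • ψ) (fun w hw => by simp [hK w hw])
  have hr' : ∀ x ∈ T, χ (1, x) = a * ψ (1, x) + r * φ (1, x) := fun x hx => by
    have := hr x hx
    simp at this
    linarith
  obtain ⟨t, h1, h2, hv⟩ := h
  refine ⟨a * t + r, fun v v1 v2 => ?_, ?_, hv⟩
  · rw [hr' v v2]
    nlinarith [h1 v v1 v2]
  · rw [h2]
    ext x
    constructor
    · rintro ⟨x1, x2⟩
      exact ⟨x1, by rw [hr' x x1, x2]; ring⟩
    · rintro ⟨x1, x2⟩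
      rw [hr' x x1] at x2
      exact ⟨x1, mul_left_cancel₀ ha.ne' (by linarith)⟩

lemma Ctx.ofFace (c : Ctx V S T φ) (hU : Fc V U) (h1 : S ⊂ U) (h2 : U ⊂ T) :
    ∃ χ : Dual ℝ (ℝ × E), (∀ x ∈ S, χ (1, x) = 0) ∧ (∃ w ∈ KK T φ, χ w ≠ 0) ∧ Sup V S T φ χ U := by
  obtain ⟨v, v1, v2, v3⟩ := MP_492a05_co.exv hU c.fS h1.2
  obtain ⟨χ, a1, a2⟩ := hU
  have z : ∀ x ∈ U, χ (1, x) = 0 := fun x hx => by rw [a2] at hx; exact hx.2
  refine ⟨χ, fun x hx => z x (h1.1 hx), ?_, 0, fun u u1 _ => by simpa using a1 u u1, ?_,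
    v, v1, v2, v3⟩
  · by_contra k
    push Not at k
    obtain ⟨t, ht⟩ := c.prop k
    have := ht v (h2.1 v2)
    rw [z v v2] at this
    have t0 : t = 0 := (mul_eq_zero.mp this.symm).resolve_right (c.vpos v1 v3).ne'
    refine h2.2 fun x hx => ?_
    rw [a2]
    exact ⟨c.hT.sub hx, by rw [ht x hx, t0]; simp⟩
  · ext x
    constructor
    · intro hx; exact ⟨h2.1 hx, by simpa using z x hx⟩
    · rintro ⟨x1, x2⟩
      rw [a2]; exact ⟨c.hT.sub x1, by simpa using x2⟩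

lemma Ctx.opp (c : Ctx V S T φ) (h : Sup V S T φ ψ U) (h' : Sup V S T φ (-ψ) U) : T ⊆ U := by
  obtain ⟨t, h1, h2, v, v1, v2, v3⟩ := h
  obtain ⟨t', h1', h2', -⟩ := h'
  have a1 := v2
  have a2 := v2
  rw [h2] at a1
  rw [h2'] at a2
  have b1 := a1.2
  have b2 := a2.2
  simp only [LinearMap.neg_apply] at b2 h1'
  have e : t' = -t := mul_right_cancel₀ (c.vpos v1 v3).ne' (by linarith)
  have := c.hT.gen (conv_zero c.hT.conv (ψ - t • φ)) (fun u u1 u2 => ⟨u2, by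
    have := h1 u u1 u2
    have := h1' u u1 u2
    rw [e] at this
    simp
    linarith⟩)
  intro x hx
  rw [h2]
  exact ⟨hx, by simpa [sub_eq_zero] using (this hx).2⟩

lemma Ctx.semi (c : Ctx V S T φ) (hψ : ∀ x ∈ S, ψ (1, x) = 0) (hχ : ∀ x ∈ S, χ (1, x) = 0)
    (τ : ℝ) (hU : Fc V U) (h : Sup V S T φ (ψ + τ • χ) U) :
    ∀ᶠ σ in 𝓝 τ, ∀ U', Fc V U' → Sup V S T φ (ψ + σ • χ) U' → U' ⊆ U := by
  obtain ⟨t, h1, h2, m, m1, m2, m3⟩ := h
  have m4 := m2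
  rw [h2] at m4
  have key : ∀ v ∈ V, ∀ᶠ σ in 𝓝 τ, v ∈ T → v ∉ U →
      (ψ + σ • χ) (1, m) * φ (1, v) < (ψ + σ • χ) (1, v) * φ (1, m) := by
    intro v hv
    by_cases k : v ∈ T ∧ v ∉ U
    · have : (ψ + τ • χ) (1, m) * φ (1, v) < (ψ + τ • χ) (1, v) * φ (1, m) := by
        have a1 : t * φ (1, v) < (ψ + τ • χ) (1, v) :=
          lt_of_le_of_ne (h1 v hv k.1) fun e => k.2 (by rw [h2]; exact ⟨k.1, e.symm⟩)
        rw [m4.2]
        nlinarith [c.vpos m1 m3]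
      have := ContinuousAt.eventually_lt (f := fun σ : ℝ => (ψ + σ • χ) (1, m) * φ (1, v))
        (g := fun σ : ℝ => (ψ + σ • χ) (1, v) * φ (1, m)) (x₀ := τ)
        (by simp only [LinearMap.add_apply, LinearMap.smul_apply, smul_eq_mul]; fun_prop)
        (by simp only [LinearMap.add_apply, LinearMap.smul_apply, smul_eq_mul]; fun_prop) this
      exact this.mono fun σ a _ _ => a
    · exact Eventually.of_forall fun σ a b => absurd ⟨a, b⟩ k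
  filter_upwards [(eventually_all_finite c.fin).mpr key] with σ hσ U' hU' h'
  obtain ⟨t', h1', h2', -⟩ := h'
  refine hU'.gen hU.conv fun v v1 v2 => ?_
  by_contra k
  rw [h2'] at v2
  have a1 := hσ v v1 v2.1 k
  have a2 := h1' m m1 m4.1
  rw [v2.2] at a1
  nlinarith [c.pos v v1]

lemma exDual {M : Submodule ℝ (ℝ × E)} {w : ℝ × E} (hw : w ∉ M) :
    ∃ ψ : Dual ℝ (ℝ × E), ψ w ≠ 0 ∧ ∀ u ∈ M, ψ u = 0 := by
  obtain ⟨f, f1, f2⟩ := M.exists_dual_map_eq_bot_of_notMem hw inferInstance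
  refine ⟨f, f1, fun u hu => ?_⟩
  have : f u ∈ M.map f := mem_map_of_mem hu
  rwa [f2, Submodule.mem_bot] at this

lemma exOut [FiniteDimensional ℝ E] {M N : Submodule ℝ (ℝ × E)}
    (h : finrank ℝ M < finrank ℝ N) : ∃ w ∈ N, w ∉ M := by
  by_contra k
  push Not at k
  exact absurd (Submodule.finrank_mono (show N ≤ M from k)) (by omega)

lemma Ctx.seg (c : Ctx V S T φ) (A : Set (Set E))
    (hA : ∀ W W', Fc V W → Fc V W' → S ⊂ W → W ⊆ W' → W' ⊂ T → (W ∈ A ↔ W' ∈ A))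
    (hψ : ∀ x ∈ S, ψ (1, x) = 0) (hχ : ∀ x ∈ S, χ (1, x) = 0) (hK : ∃ w ∈ KK T φ, ψ w ≠ 0)
    {w : ℝ × E} (w1 : w ∈ KK T φ) (w2 : ψ w = 0) (w3 : χ w ≠ 0)
    (h : Sup V S T φ ψ U) (h' : Sup V S T φ χ U') : U ∈ A ↔ U' ∈ A := by
  have z : ∀ τ : ℝ, ∀ x ∈ S, (ψ + τ • (χ - ψ)) (1, x) = 0 := fun τ x hx => by
    simp [hψ x hx, hχ x hx]
  have k : ∀ τ : ℝ, ∃ w ∈ KK T φ, (ψ + τ • (χ - ψ)) w ≠ 0 := by
    intro τ
    by_cases e : τ = 0
    · simpa [e] using hK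
    · exact ⟨w, w1, by simp [w2, w3, e]⟩
  choose f hf using fun τ : ℝ => c.exSup (z τ)
  have ff := fun τ => c.face (z τ) (k τ) (hf τ)
  have lc : IsLocallyConstant fun τ => f τ ∈ A := by
    rw [IsLocallyConstant.iff_eventually_eq]
    intro τ
    filter_upwards [c.semi hψ (fun x hx => by simp [hψ x hx, hχ x hx]) τ (ff τ).1 (hf τ)] with σ hσ
    exact propext (hA _ _ (ff σ).1 (ff τ).1 (ff σ).2.1 (hσ _ (ff σ).1 (hf σ)) (ff τ).2.2)
  have := lc.apply_eq_of_preconnectedSpace 0 1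
  have e0 : f 0 = U := c.uniq (by simpa using hf 0) h
  have e1 : f 1 = U' := c.uniq (by simpa using hf 1) h'
  rw [e0, e1] at this
  rw [this]

end

theorem geom [FiniteDimensional ℝ E] {V : Set E} (hV : V.Finite) (p : Set E → Prop)
    (hp : ∀ F, p F ↔ Fc V F) (σ : {F // p F} → ℕ) (hσ : ∀ F, σ F = finrank ℝ (sp F.1)) :
    Thin σ ∧ Con σ := by
  have ctx : ∀ x y : {F // p F}, x < y → ∃ φ, Ctx V x.1 y.1 φ := by
    intro x y hxy
    obtain ⟨φ, a1, a2⟩ := (hp _).mp x.2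
    exact ⟨φ, hV, a1, a2, (hp _).mp y.2, hxy.le, fun e => hxy.ne (Subtype.ext e)⟩
  have mono : ∀ x y : {F // p F}, x < y → σ x < σ y := by
    intro x y hxy
    obtain ⟨φ, c⟩ := ctx x y hxy
    have := c.rkK
    have := Submodule.finrank_mono c.leK
    rw [hσ, hσ]; omega
  refine ⟨⟨mono, fun x y hxy hr => ?_, fun x y hxy hr => ?_⟩, fun x y hxy hr A hA => ?_⟩
  · obtain ⟨φ, c⟩ := ctx x y hxy
    have := c.rkK
    rw [hσ, hσ] at hr
    obtain ⟨w, w1, w2⟩ := exOut (M := sp x.1) (N := KK y.1 φ) (by omega)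
    obtain ⟨ψ, p1, p2⟩ := exDual w2
    obtain ⟨U, hU⟩ := c.exSup (ψ := ψ) (fun u hu => p2 _ (mem_sp hu))
    obtain ⟨a1, a2, a3⟩ := c.face (fun u hu => p2 _ (mem_sp hu)) ⟨w, w1, p1⟩ hU
    exact ⟨⟨U, (hp _).mpr a1⟩, a2, a3⟩
  · obtain ⟨φ, c⟩ := ctx x y (Thin.lt hxy (ρ := σ) (by omega))
    have rK := c.rkK
    have hr' := hr
    rw [hσ, hσ] at hr'
    obtain ⟨w, w1, w2⟩ := exOut (M := sp x.1) (N := KK y.1 φ) (by omega)
    obtain ⟨ψ, p1, p2⟩ := exDual w2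
    have eK : sp x.1 ⊔ span ℝ {w} = KK y.1 φ :=
      Submodule.eq_of_le_of_finrank_eq (sup_le c.leK ((span_singleton_le_iff_mem _ _).mpr w1))
        (by rw [finrank_sup_span_singleton w2]; omega)
    obtain ⟨U, hU⟩ := c.exSup (ψ := ψ) (fun u hu => p2 _ (mem_sp hu))
    obtain ⟨a1, a2, a3⟩ := c.face (fun u hu => p2 _ (mem_sp hu)) ⟨w, w1, p1⟩ hU
    obtain ⟨U', hU'⟩ := c.exSup (ψ := -ψ) (fun u hu => by simp [p2 _ (mem_sp hu)])
    obtain ⟨b1, b2, b3⟩ := c.face (fun u hu => by simp [p2 _ (mem_sp hu)])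
      ⟨w, w1, by simpa using p1⟩ hU'
    refine ⟨⟨U, (hp _).mpr a1⟩, ⟨U', (hp _).mpr b1⟩, fun e => ?_, fun z => ⟨?_, ?_⟩⟩
    · have e' : U = U' := congrArg Subtype.val e
      exact a3.2 (c.opp hU (e' ▸ hU'))
    · rintro ⟨z1, z2, z3⟩
      obtain ⟨χ, k1, ⟨u, u1, u2⟩, k3⟩ := c.ofFace ((hp _).mp z.2)
        (Thin.lt z1 (ρ := σ) (by omega)) (Thin.lt z2 (ρ := σ) (by omega))
      have rel : ∀ u ∈ KK y.1 φ, χ u = χ w / ψ w * ψ u := by
        intro u hu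
        rw [← eK] at hu
        obtain ⟨a, ha, b, hb, rfl⟩ := mem_sup.mp hu
        obtain ⟨r, rfl⟩ := mem_span_singleton.mp hb
        simp only [map_add, map_smul, smul_eq_mul, p2 a ha, sp_zero k1 a ha]
        field_simp
        ring
      rcases lt_trichotomy (χ w / ψ w) 0 with l | l | l
      · right
        exact Subtype.ext (c.uniq k3 (c.congr (a := -(χ w / ψ w)) (by linarith)
          (fun u hu => by simp [rel u hu]) hU'))
      · exact absurd (by rw [rel u u1, l]; simp) u2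
      · left
        exact Subtype.ext (c.uniq k3 (c.congr l rel hU))
    · rintro (rfl | rfl)
      · have := mono x ⟨U, (hp _).mpr a1⟩ a2
        have := mono ⟨U, (hp _).mpr a1⟩ y a3
        exact ⟨a2.1, a3.1, by omega⟩
      · have := mono x ⟨U', (hp _).mpr b1⟩ b2
        have := mono ⟨U', (hp _).mpr b1⟩ y b3
        exact ⟨b2.1, b3.1, by omega⟩
  · obtain ⟨φ, c⟩ := ctx x y (Thin.lt hxy (ρ := σ) (by omega))
    have rK := c.rkK
    rw [hσ, hσ] at hr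
    intro z z' z1 z2 z3 z4 hz
    obtain ⟨χ, k1, ⟨u, u1, u2⟩, k3⟩ := c.ofFace ((hp _).mp z.2) z1 z2
    obtain ⟨χ', l1, l2, l3⟩ := c.ofFace ((hp _).mp z'.2) z3 z4
    have r2 := rk_ker (KK y.1 φ) χ u1 u2
    obtain ⟨w, ⟨w1, w3⟩, w2⟩ := exOut (M := sp x.1) (N := KK y.1 φ ⊓ LinearMap.ker χ) (by omega)
    have hB : ∀ W W', Fc V W → Fc V W' → x.1 ⊂ W → W ⊆ W' → W' ⊂ y.1 →
        (W ∈ Subtype.val '' A ↔ W' ∈ Subtype.val '' A) := by
      intro W W' a1 a2 a3 a4 a5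
      have := hA ⟨W, (hp _).mpr a1⟩ ⟨W', (hp _).mpr a2⟩ a3 a4 a5
      rw [← Subtype.val_injective.mem_set_image, ← Subtype.val_injective.mem_set_image] at this
      exact this
    rw [← Subtype.val_injective.mem_set_image] at hz ⊢
    by_cases e : χ' w = 0
    · obtain ⟨ψ, p1, p2⟩ := exDual w2
      obtain ⟨U, hU⟩ := c.exSup (ψ := ψ) (fun u hu => p2 _ (mem_sp hu))
      have s1 := c.seg _ hB k1 (fun u hu => p2 _ (mem_sp hu)) ⟨u, u1, u2⟩ w1 w3 p1 k3 hU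
      have s2 := c.seg _ hB l1 (fun u hu => p2 _ (mem_sp hu)) l2 w1 e p1 l3 hU
      exact s2.mpr (s1.mp hz)
    · exact (c.seg _ hB k1 l1 ⟨u, u1, u2⟩ w1 w3 e k3 l3).mp hz

lemma rk_sp [FiniteDimensional ℝ E] {F : Set E} {x : E} (hx : x ∈ F) :
    finrank ℝ (sp F) = finrank ℝ (vectorSpan ℝ F) + 1 := by
  rw [← rk_ker (sp F) (LinearMap.fst ℝ ℝ E) (mem_sp hx) (by simp),
    LinearEquiv.finrank_eq (equivMapOfInjective (LinearMap.inr ℝ ℝ E) LinearMap.inr_injective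
      (vectorSpan ℝ F))]
  suffices e : sp F ⊓ (LinearMap.fst ℝ ℝ E).ker =
    Submodule.map (LinearMap.inr ℝ ℝ E) (vectorSpan ℝ F) by rw [e]
  apply le_antisymm
  · rintro w ⟨w1, w2⟩
    have key : ∀ w ∈ sp F, w - w.1 • ((1 : ℝ), x) ∈ (vectorSpan ℝ F).map (LinearMap.inr ℝ ℝ E) := by
      intro w hw
      induction hw using span_induction with
      | mem u hu =>
        obtain ⟨y, hy, rfl⟩ := hu
        exact ⟨y - x, vsub_mem_vectorSpan ℝ hy hx, by simp⟩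
      | zero => simp
      | add a b _ _ ha hb =>
        convert add_mem ha hb using 1
        simp only [Prod.fst_add, add_smul]; abel
      | smul r a _ ha =>
        convert smul_mem _ r ha using 1
        simp only [Prod.smul_fst, smul_eq_mul, mul_smul, smul_sub]
    have w3 : w.1 = 0 := w2
    simpa [w3] using key w w1
  · rw [Submodule.map_le_iff_le_comap, vectorSpan_eq_span_vsub_set_right ℝ hx, span_le]
    rintro _ ⟨y, hy, rfl⟩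
    refine ⟨?_, by simp⟩
    convert sub_mem (mem_sp hy) (mem_sp hx) using 1
    simp

end Pool.Agent.H.MP_492a05_co
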